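import Pool.Agent.Q178.Box.Embed

/-!
# The space of pyramids embeds in the hyperspace of closed sets with the Fell topology
-/

namespace Pool.Agent.Results.MP_5a76a9_gt.FellEmbedding

open Q178.Box Topology

/-- There is exactly one weak topology on `Π` (metrizable, with the weakly convergent sequences as
convergent sequences), and for it the inclusion of `Π` in `ℱ(𝒳, □)` with the Fell topology is a
topological embedding. -/
theorem result : (∃! τ, IsWeakTopology τ) ∧
    ∀ τ, IsWeakTopology τ → @IsEmbedding Pyr Cl τ fell pyrIncl :=
  ⟨existsUnique_weak, embedding_fell⟩

end Pool.Agent.Results.MP_5a76a9_gt.FellEmbedding
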